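import Mathlib
import Pool.Agent.W2helper81.RieszExist
import Pool.Agent.W2helper81.RieszCond

set_option autoImplicit false

namespace Pool.Agent.Results.MP_b22a07_co.BalancedSimplices

open Finset Pool.Agent.W2helper81.Riesz

/-- Sum of the Euclidean distances over the unordered pairs of points of `P`. -/
noncomputable def distSum {d : ℕ} (P : Finset (EuclideanSpace ℝ (Fin d))) : ℝ :=
  (∑ p ∈ P, ∑ q ∈ P, dist p q) / 2

/-- `P` is a set of `N` points of the unit sphere of `ℝ^(k+1)`. -/
def IsConfig (k N : ℕ) (P : Finset (EuclideanSpace ℝ (Fin (k + 1)))) : Prop :=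
  (∀ p ∈ P, ‖p‖ = 1) ∧ P.card = N

/-- `P` is the union of `r` classes with `m` or `m + 1` points each, two distinct points having
inner product `-1/(n-1)` if they lie in one class, of size `n`, and `0` otherwise. For unit vectors
this says that `P` is the union of the vertex sets of `r` mutually orthogonal regular simplices
with `m` or `m + 1` vertices. -/
def BalancedUnion (r m : ℕ) {d : ℕ} (P : Finset (EuclideanSpace ℝ (Fin d))) : Prop :=
  ∃ c : EuclideanSpace ℝ (Fin d) → Fin r,
    (∀ a, (P.filter (fun p => c p = a)).card = m ∨ (P.filter (fun p => c p = a)).card = m + 1) ∧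
    ∀ p ∈ P, ∀ q ∈ P, p ≠ q → inner ℝ p q =
      if c p = c q then -1 / (((P.filter (fun z => c z = c p)).card : ℝ) - 1) else 0

/-- the contribution of one class of size `n` -/
noncomputable def classVal (N n : ℕ) : ℝ := n * ((N : ℝ) - n + √((n : ℝ) * (n - 1)))

/-- the optimal value -/
noncomputable def val (N r : ℕ) : ℝ :=
  (((r : ℝ) - (N % r : ℕ)) * classVal N (N / r) + (N % r : ℕ) * classVal N (N / r + 1)) / √2

/-- the point list -/
abbrev pts {k : ℕ} (P : Finset (EuclideanSpace ℝ (Fin (k + 1)))) :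
    P → EuclideanSpace ℝ (Fin (k + 1)) := fun p => p

lemma distSum_eq {k N : ℕ} {P : Finset (EuclideanSpace ℝ (Fin (k + 1)))} (hP : IsConfig k N P) :
    distSum P = -(1 / √2) * pairSum (fun t => -(1 - t) ^ (-(-(1 / 2 : ℝ)))) (pts P) := by
  classical
  have hs : (√2 : ℝ) ^ 2 = 2 := Real.sq_sqrt (by norm_num)
  have hs0 : (√2 : ℝ) ≠ 0 := by positivity
  have hnorm : ∀ i : P, ‖pts P i‖ = 1 := fun i => hP.1 i i.2
  have h1 : ∀ i j : P, dist (i : EuclideanSpace ℝ (Fin (k + 1))) j =
      √2 * (1 - inner ℝ (pts P i) (pts P j)) ^ ((1 / 2 : ℝ)) := by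
    intro i j
    have h2 : ‖pts P i - pts P j‖ ^ 2 = 2 * (1 - inner ℝ (pts P i) (pts P j)) := by
      rw [norm_sub_sq_real, hnorm i, hnorm j]; ring
    have h3 : 0 ≤ 1 - inner ℝ (pts P i) (pts P j) := by
      have := sq_nonneg (‖pts P i - pts P j‖)
      linarith
    rw [← Real.sqrt_eq_rpow, ← Real.sqrt_mul (by norm_num), ← h2, Real.sqrt_sq (norm_nonneg _),
      dist_eq_norm]
  have h2 : ∑ p ∈ P, ∑ q ∈ P, dist p q = ∑ i : P, ∑ j ∈ univ.erase i,
      √2 * (1 - inner ℝ (pts P i) (pts P j)) ^ ((1 / 2 : ℝ)) := by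
    rw [← Finset.sum_coe_sort P]
    apply Finset.sum_congr rfl
    intro i _
    rw [← Finset.sum_coe_sort P, ← Finset.add_sum_erase _ _ (Finset.mem_univ i), dist_self,
      zero_add]
    exact Finset.sum_congr rfl fun j _ => h1 i j
  unfold distSum pairSum
  rw [h2]
  simp only [neg_neg, Finset.sum_neg_distrib, ← Finset.mul_sum]
  have e : (√2 : ℝ) / 2 = 1 / √2 := by
    rw [div_eq_div_iff (by norm_num) hs0, ← sq, hs]; norm_num
  rw [mul_div_right_comm, e]
  ring

lemma balanced_iff {k N r : ℕ} (hr0 : 1 ≤ r) (hNr : 2 * r ≤ N)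
    {P : Finset (EuclideanSpace ℝ (Fin (k + 1)))} (hP : IsConfig k N P) :
    IsBalanced r (pts P) ↔ BalancedUnion r (N / r) P := by
  classical
  have hcard : Fintype.card P = N := by rw [Fintype.card_coe]; exact hP.2
  have hm2 : 2 ≤ N / r := by
    rw [Nat.le_div_iff_mul_le (by omega)]; exact hNr
  constructor
  · rintro ⟨c, hc, hs⟩
    rw [hcard] at hs
    let c' : EuclideanSpace ℝ (Fin (k + 1)) → Fin r := fun p =>
      if h : p ∈ P then c ⟨p, h⟩ else ⟨0, by omega⟩
    have hc' : ∀ i : P, c' i = c i := by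
      intro i
      simp [c', i.2]
    have hsz : ∀ a, (P.filter (fun p => c' p = a)).card = csize c a := by
      intro a
      unfold csize
      symm
      apply Finset.card_bij (fun (j : P) _ => (j : EuclideanSpace ℝ (Fin (k + 1))))
      · intro j hj
        rw [Finset.mem_filter] at hj ⊢
        exact ⟨j.2, by rw [hc']; exact hj.2⟩
      · intro j _ j' _ h
        exact Subtype.ext h
      · intro p hp
        rw [Finset.mem_filter] at hp
        refine ⟨⟨p, hp.1⟩, ?_, rfl⟩
        rw [Finset.mem_filter]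
        refine ⟨Finset.mem_univ _, ?_⟩
        rw [← hc' ⟨p, hp.1⟩]
        exact hp.2
    refine ⟨c', ?_, ?_⟩
    · intro a
      rw [hsz a]
      exact hs a
    · intro p hp q hq hpq
      have h := hc.2 ⟨p, hp⟩ ⟨q, hq⟩
      rw [if_neg (fun h => hpq (congrArg Subtype.val h))] at h
      have e1 := hc' ⟨p, hp⟩
      have e2 := hc' ⟨q, hq⟩
      simp only at e1 e2
      rw [hsz, e1, e2]
      exact h
  · rintro ⟨c, hs, hin⟩
    let c' : P → Fin r := fun i => c i
    have hsz : ∀ a, csize c' a = (P.filter (fun p => c p = a)).card := by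
      intro a
      unfold csize
      apply Finset.card_bij (fun (j : P) _ => (j : EuclideanSpace ℝ (Fin (k + 1))))
      · intro j hj
        rw [Finset.mem_filter] at hj ⊢
        exact ⟨j.2, hj.2⟩
      · intro j _ j' _ h
        exact Subtype.ext h
      · intro p hp
        rw [Finset.mem_filter] at hp
        refine ⟨⟨p, hp.1⟩, ?_, rfl⟩
        rw [Finset.mem_filter]
        exact ⟨Finset.mem_univ _, hp.2⟩
    refine ⟨c', ⟨?_, ?_⟩, ?_⟩
    · intro a
      rw [hsz]
      rcases hs a with h | h <;> omega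
    · intro i j
      by_cases hij : i = j
      · subst hij
        rw [if_pos rfl, real_inner_self_eq_norm_sq, hP.1 i i.2]
        norm_num
      · rw [if_neg hij, hsz]
        exact hin i i.2 j j.2 (fun h => hij (Subtype.ext h))
    · intro a
      rw [hsz, hcard]
      exact hs a

lemma val_eq {N r : ℕ} (hr0 : 1 ≤ r) (hNr : 2 * r ≤ N) :
    val N r = -(1 / √2) * valN N (N / r) r (N % r) (fun t => -(1 - t) ^ (-(-(1 / 2 : ℝ)))) := by
  have hm2 : 2 ≤ N / r := by
    rw [Nat.le_div_iff_mul_le (by omega)]; exact hNr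
  obtain ⟨m, hm⟩ : ∃ m, m = N / r := ⟨_, rfl⟩
  have hm2' : (2 : ℝ) ≤ m := by rw [hm]; exact_mod_cast hm2
  unfold val valN classVal
  rw [← hm]
  have e0 : (1 - (0 : ℝ)) ^ (-(-(1 / 2 : ℝ))) = 1 := by
    rw [sub_zero, Real.one_rpow]
  have e1 : ((m : ℝ) - 1) * (1 - -1 / ((m : ℝ) - 1)) ^ (-(-(1 / 2 : ℝ))) = √((m : ℝ) * (m - 1)) := by
    rw [neg_neg, ← Real.sqrt_eq_rpow]
    have h1 : (0 : ℝ) < m - 1 := by linarith
    have h2 : 1 - -1 / ((m : ℝ) - 1) = m / (m - 1) := by field_simp; ring
    rw [h2]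
    have h3 : ((m : ℝ) - 1) = √((m - 1) ^ 2) := by rw [Real.sqrt_sq h1.le]
    calc ((m : ℝ) - 1) * √(m / (m - 1)) = √((m - 1) ^ 2) * √(m / (m - 1)) := by rw [← h3]
      _ = √((m - 1) ^ 2 * (m / (m - 1))) := by rw [Real.sqrt_mul (sq_nonneg _)]
      _ = √((m : ℝ) * (m - 1)) := by
        congr 1
        field_simp
  have e2 : (m : ℝ) * (1 - -1 / (m : ℝ)) ^ (-(-(1 / 2 : ℝ))) =
      √(((m : ℝ) + 1) * (((m : ℝ) + 1) - 1)) := by
    rw [neg_neg, ← Real.sqrt_eq_rpow]
    have h1 : (0 : ℝ) < m := by linarith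
    have h2 : 1 - -1 / (m : ℝ) = (m + 1) / m := by field_simp; ring
    rw [h2]
    have h3 : (m : ℝ) = √(m ^ 2) := by rw [Real.sqrt_sq h1.le]
    calc (m : ℝ) * √((m + 1) / m) = √(m ^ 2) * √((m + 1) / m) := by rw [← h3]
      _ = √(m ^ 2 * ((m + 1) / m)) := by rw [Real.sqrt_mul (sq_nonneg _)]
      _ = √(((m : ℝ) + 1) * (((m : ℝ) + 1) - 1)) := by
        congr 1
        field_simp
        ring
  push_cast
  simp only [e0]
  rw [← e1, ← e2]
  ring

/-- **Main theorem.** Let `N = k + 1 + r` with `r ≥ 1`, and suppose that `r` divides `N` or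
`4 r ≤ N`. Then the largest sum of distances of `N` points of the unit sphere of `ℝ^(k+1)` is
`val N r`, and the maximisers are exactly the unions of `r` mutually orthogonal regular simplices
with `⌊N/r⌋` or `⌊N/r⌋ + 1` vertices each. -/
theorem result (k N r : ℕ) (hr0 : 1 ≤ r) (hr : N = k + 1 + r) (h : r ∣ N ∨ 4 * r ≤ N) :
    IsGreatest {s : ℝ | ∃ P, IsConfig k N P ∧ s = distSum P}
      ((((r : ℝ) - (N % r : ℕ)) * classVal N (N / r) + (N % r : ℕ) * classVal N (N / r + 1)) / √2) ∧
    ∀ P, IsConfig k N P →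
      (distSum P =
        (((r : ℝ) - (N % r : ℕ)) * classVal N (N / r) + (N % r : ℕ) * classVal N (N / r + 1)) / √2
          ↔ BalancedUnion r (N / r) P) := by
  classical
  have hv : (((r : ℝ) - (N % r : ℕ)) * classVal N (N / r) +
      (N % r : ℕ) * classVal N (N / r + 1)) / √2 = val N r := rfl
  rw [hv]
  have hNr : 2 * r ≤ N := by
    rcases h with h | h
    · obtain ⟨t, ht⟩ := h
      have : 2 ≤ t := by
        by_contra hcon
        have : t = 0 ∨ t = 1 := by omega
        rcases this with h1 | h1 <;> subst h1 <;> omega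
      calc 2 * r ≤ t * r := Nat.mul_le_mul_right r this
        _ = N := by rw [ht, Nat.mul_comm]
    · omega
  have hm2 : 2 ≤ N / r := by
    rw [Nat.le_div_iff_mul_le (by omega)]; exact hNr
  have hN : N = r * (N / r) + N % r := (Nat.div_add_mod N r).symm
  have he : N % r < r := Nat.mod_lt _ (by omega)
  have hc : N % r = 0 ∨ Cond (-(1 / 2)) (N / r) := by
    rcases h with h | h
    · left; exact Nat.mod_eq_zero_of_dvd h
    · right
      apply cond_half
      rw [Nat.le_div_iff_mul_le (by omega)]; exact h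
  have hf : Rep (-(1 / 2)) (fun t => -(1 - t) ^ (-(-(1 / 2 : ℝ)))) := by
    obtain ⟨C, hC, h⟩ := rep_neg (ρ := -(1 / 2)) (by norm_num) (by norm_num)
    exact ⟨C, -1, hC, h⟩
  have hs2 : (0 : ℝ) < 1 / √2 := by positivity
  have hlow : ∀ P, IsConfig k N P → distSum P ≤ val N r ∧
      (val N r ≤ distSum P → IsBalanced r (pts P)) := by
    intro P hP
    have hcard : Fintype.card P = N := by rw [Fintype.card_coe]; exact hP.2
    have hx : ∀ i : P, ‖pts P i‖ = 1 := fun i => hP.1 i i.2
    have hb := main_bound (x := pts P) (by norm_num) (by norm_num) hf hx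
      (inner_lt_one_of_ne hx Subtype.val_injective) (r := r) (m := N / r) (e := N % r)
      (by rw [hcard, finrank_euclideanSpace, Fintype.card_fin]; exact hr)
      (by rw [hcard]; exact hN) he hm2 hc
    rw [hcard] at hb
    rw [distSum_eq hP, val_eq hr0 hNr]
    refine ⟨?_, fun hle => hb.2 ?_⟩
    · have := mul_le_mul_of_nonneg_left hb.1 hs2.le
      linarith
    · have h1 : 1 / √2 * pairSum (fun t => -(1 - t) ^ (-(-(1 / 2 : ℝ)))) (pts P) ≤
        1 / √2 * valN N (N / r) r (N % r) (fun t => -(1 - t) ^ (-(-(1 / 2 : ℝ)))) := by linarith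
      exact le_of_mul_le_mul_left h1 hs2
  have hval : ∀ P, IsConfig k N P → IsBalanced r (pts P) → distSum P = val N r := by
    intro P hP hb
    have hcard : Fintype.card P = N := by rw [Fintype.card_coe]; exact hP.2
    have h := main_value (x := pts P) (r := r) (m := N / r) (e := N % r)
      (by rw [hcard]; exact hN) he hb (fun t => -(1 - t) ^ (-(-(1 / 2 : ℝ))))
    rw [hcard] at h
    rw [distSum_eq hP, val_eq hr0 hNr, h]
  refine ⟨⟨?_, ?_⟩, ?_⟩
  · obtain ⟨x, c, hc', hs⟩ := exists_balanced r (N / r) (N % r) (k + 1) N hm2 he hN hr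
    have hinj := hc'.injective
    let P : Finset (EuclideanSpace ℝ (Fin (k + 1))) := Finset.univ.image x
    have hP : IsConfig k N P := by
      constructor
      · intro p hp
        obtain ⟨i, _, rfl⟩ := Finset.mem_image.1 hp
        exact hc'.norm_eq i
      · rw [Finset.card_image_of_injective _ hinj, Finset.card_univ, Fintype.card_fin]
    refine ⟨P, hP, ?_⟩
    symm
    apply hval P hP
    rw [balanced_iff hr0 hNr hP]
    let c' : EuclideanSpace ℝ (Fin (k + 1)) → Fin r := fun p =>
      if h : ∃ i, x i = p then c h.choose else ⟨0, by omega⟩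
    have hcc : ∀ i, c' (x i) = c i := by
      intro i
      have h : ∃ j, x j = x i := ⟨i, rfl⟩
      simp only [c', dif_pos h]
      rw [hinj h.choose_spec]
    have hsz : ∀ a, (P.filter (fun p => c' p = a)).card = csize c a := by
      intro a
      unfold csize
      symm
      apply Finset.card_bij (fun i _ => x i)
      · intro i hi
        rw [Finset.mem_filter] at hi ⊢
        exact ⟨Finset.mem_image_of_mem _ (Finset.mem_univ i), by rw [hcc]; exact hi.2⟩
      · intro i _ j _ hij
        exact hinj hij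
      · intro p hp
        rw [Finset.mem_filter, Finset.mem_image] at hp
        obtain ⟨⟨i, _, rfl⟩, hp2⟩ := hp
        refine ⟨i, ?_, rfl⟩
        rw [Finset.mem_filter]
        exact ⟨Finset.mem_univ _, by rw [← hcc]; exact hp2⟩
    rw [Fintype.card_fin] at hs
    refine ⟨c', ?_, ?_⟩
    · intro a
      rw [hsz]; exact hs a
    · intro p hp q hq hpq
      obtain ⟨i, _, rfl⟩ := Finset.mem_image.1 hp
      obtain ⟨j, _, rfl⟩ := Finset.mem_image.1 hq
      rw [hsz, hcc, hcc, hc'.2 i j, if_neg (fun h => hpq (congrArg x h))]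
  · rintro s ⟨P, hP, rfl⟩
    exact (hlow P hP).1
  · intro P hP
    rw [← balanced_iff hr0 hNr hP]
    exact ⟨fun heq => (hlow P hP).2 heq.ge, hval P hP⟩

end Pool.Agent.Results.MP_b22a07_co.BalancedSimplices
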